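import Pool.Agent.Lib.MP_3e612f_nt.NFinal

/-!
The Möbius function is orthogonal, in logarithmic averages, to every bounded function of a vector
formed by automatic sequences and quasi-additive functions of the digits in several pairwise
coprime bases and a rationally almost periodic sequence, twisted by an arbitrary polynomial phase,
uniformly in the bounded function.
-/

set_option autoImplicit false

namespace Pool.Agent.Results.MP_3e612f_nt.AutomaticBases

open Filter Topology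

theorem result {r : ℕ} (q m d : Fin r → ℕ) (hq : ∀ i, 2 ≤ q i)
    (hc : ∀ i j, i ≠ j → (q i).Coprime (q j))
    {A : Fin r → Type*} (a : ∀ i, ℕ → A i)
    (ha : ∀ i, {g : ℕ → A i | ∃ k s : ℕ, s < q i ^ k ∧
      g = fun n => a i (q i ^ k * n + s)}.Finite)
    (e : ∀ i, ℕ → Fin (d i) → ℤ)
    (he : ∀ i, ∀ k y s : ℕ, s < q i ^ k → e i (q i ^ (k + m i) * y + s) = e i y + e i s)
    (C : ℝ) (hC : ∀ i n j, |(e i n j : ℝ)| ≤ C * (1 + Real.log (n + 1)))
    {A₀ : Type*} [DecidableEq A₀] (b : ℕ → A₀)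
    (hb : ∀ ε : ℝ, 0 < ε → ∃ (M : ℕ) (c : ℕ → A₀), 1 ≤ M ∧ ∀ᶠ N : ℕ in atTop,
      (1 / Real.log N) * ∑ n ∈ Finset.Icc 1 N, (if b n = c (n % M) then (0 : ℝ) else 1) / n ≤ ε)
    (P : Polynomial ℝ) (Ψ : ℕ → A₀ → (∀ i, A i) → (∀ i, Fin (d i) → ℤ) → ℂ) (B : ℝ)
    (hΨ : ∀ N b x v, ‖Ψ N b x v‖ ≤ B) :
    Tendsto (fun N : ℕ => (1 / Real.log N : ℂ) * ∑ n ∈ Finset.Icc 1 N,
      Complex.exp (2 * Real.pi * Complex.I * P.eval (n : ℝ)) *
        Ψ N (b n) (fun i => a i n) (fun i => e i n) *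
        (ArithmeticFunction.moebius n : ℂ) / n) atTop (𝓝 0) := by
  choose C' hC' using fun i =>
    Pool.Agent.Lib.MP_3e612f_nt.QA.QV.of_log (hq i) (he i) (hC i)
  exact Pool.Agent.Lib.MP_3e612f_nt.NB.rap_N hq hc ha hC' hb P hΨ

end Pool.Agent.Results.MP_3e612f_nt.AutomaticBases
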