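import Pool.Agent.Lib.MP_3e612f_nt.PFinal

/-!
The Möbius function is orthogonal, in logarithmic averages, to every bounded function of a pair
formed by an automatic sequence and a quasi-additive function of the digits, twisted by an
arbitrary polynomial phase, uniformly in the bounded function.
-/

set_option autoImplicit false

namespace Pool.Agent.Results.MP_3e612f_nt.AutomaticDigital

open Filter Topology

theorem result {q m d : ℕ} (hq : 2 ≤ q) {A : Type*} (a : ℕ → A)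
    (ha : {g : ℕ → A | ∃ k r : ℕ, r < q ^ k ∧ g = fun n => a (q ^ k * n + r)}.Finite)
    (e : ℕ → Fin d → ℤ)
    (he : ∀ k y s : ℕ, s < q ^ k → e (q ^ (k + m) * y + s) = e y + e s)
    (C : ℝ) (hC : ∀ n i, |(e n i : ℝ)| ≤ C * (1 + Real.log (n + 1)))
    (P : Polynomial ℝ) (Ψ : ℕ → A → (Fin d → ℤ) → ℂ) (B : ℝ) (hΨ : ∀ N x v, ‖Ψ N x v‖ ≤ B) :
    Tendsto (fun N : ℕ => (1 / Real.log N : ℂ) * ∑ n ∈ Finset.Icc 1 N,
      Complex.exp (2 * Real.pi * Complex.I * P.eval (n : ℝ)) * Ψ N (a n) (e n) *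
        (ArithmeticFunction.moebius n : ℂ) / n) atTop (𝓝 0) := by
  obtain ⟨C', hC'⟩ := Pool.Agent.Lib.MP_3e612f_nt.QA.QV.of_log hq he hC
  exact Pool.Agent.Lib.MP_3e612f_nt.SA.poly_seq hq ha hC' P hΨ

end Pool.Agent.Results.MP_3e612f_nt.AutomaticDigital
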