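import Pool.Agent.Lib.MP_3e612f_nt.EM.Fin

/-!
Sarnak's conjecture, uniformly in the point, for the universal subshift of all functions of `d` of
the numbers `⌊n / q^i⌋ mod m`, for every base `q`, every modulus `m`, every `d` and every finite
abelian group. For `m = q` and `A = ℤ/M` it contains all polynomials of degree `≤ d` over `ℤ/M` in the
base `q` digits.
-/

set_option autoImplicit false

namespace Pool.Agent.Results.MP_3e612f_nt.EveryModulus

open Pool.Agent.Lib.MP_3e612f_nt.EM

/-- Let `q ≥ 2`, `m ≥ 1`, `d ≥ 1`, and let `A` be a finite abelian group. Let `X` be the set of all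
sequences `x` in `A` such that every initial block of `x` occurs in some sequence
`n ↦ ∑_{j_1, …, j_d < L} F_j (⌊n / q^(j_1)⌋ mod m, …, ⌊n / q^(j_d)⌋ mod m)`, with arbitrary `L` and
arbitrary functions `F_j`. Then `X` is a nonempty subshift of zero topological entropy, and for every
continuous function `f` on `X` the averages of `f (T^n x) μ(n)` over `n ≤ N` tend to `0` uniformly in
`x ∈ X`. -/
theorem result (q m d : ℕ) (hq : 2 ≤ q) (hm : 1 ≤ m) (hd : 1 ≤ d) (A : Type) [AddCommGroup A]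
    [Finite A] [UniformSpace A] [DiscreteUniformity A] :
    let X : Set (ℕ → A) := {x | ∀ l : ℕ, ∃ (L s : ℕ) (F : (Fin d → Fin L) → (Fin d → ℕ) → A),
      ∀ i < l, x i = ∑ j : Fin d → Fin L, F j (fun a => (i + s) / q ^ (j a : ℕ) % m)}
    let T : (ℕ → A) → ℕ → A := fun x i => x (i + 1)
    X.Nonempty ∧ IsClosed X ∧ Set.MapsTo T X X ∧ Dynamics.coverEntropy T X = 0 ∧
      ∀ f : (ℕ → A) → ℂ, ContinuousOn f X → ∀ ε : ℝ, 0 < ε → ∃ N₀ : ℕ, ∀ N ≥ N₀, ∀ x ∈ X,
        ‖∑ n ∈ Finset.Icc 1 N, f (T^[n] x) * ((ArithmeticFunction.moebius n : ℤ) : ℂ)‖ ≤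
          ε * N :=
  result_all q m d hq hm hd A

end Pool.Agent.Results.MP_3e612f_nt.EveryModulus
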