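import Pool.Agent.Lib.MP_3e612f_nt.HU.FinalU

/-!
The Möbius function on almost all short intervals against the words of an arbitrary topological
dynamical system of zero (or small) topological entropy times polynomial phases of high degree.
-/

set_option autoImplicit false

namespace Pool.Agent.Results.MP_3e612f_nt.HighDegreePhases

/-- For every `ε > 0` there is `h > 0` such that for every compact metric system `(X, T)` of
topological entropy less than `h` (in particular for every system of zero entropy) and every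
continuous `f` bounded by one there is `D` with the following property. Let `d ≥ D` and let `A` be a
compact set of real numbers such that `p ^ d * a + r ^ d * b` and `p ^ d * a - r ^ d * b` are
irrational for all `a, b ∈ A` and all primes `p < r` (for example a single irrational number).
Then for all `H ≥ H₀` and `N ≥ N₀(H)`, the average over `n ≤ N` of
`|(1/H) ∑_{h < H} μ(n + h) f (T^h x_n) exp (2 π i P_n(h))|` is at most `ε`, for all points `x_n` and
all real polynomials `P_n` of degree at most `d` whose coefficient of degree `d` lies in `A`.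
Moreover `D ≤ ⌈2 k⌉ + 1` for every real `k > 0` such that the number of orbit segments of length `L`
needed to approximate all of them up to `δ` on average is `o (L ^ k)` along a sequence of lengths,
for every `δ > 0`. -/
theorem result (ε : ℝ) (hε : 0 < ε) : ∃ h : ℝ, 0 < h ∧
    ∀ (X : Type) [MetricSpace X] [CompactSpace X] (T : X → X), Continuous T →
      Dynamics.coverEntropy T Set.univ < (h : EReal) →
      ∀ f : X → ℂ, Continuous f → (∀ x, ‖f x‖ ≤ 1) →
      ∃ D : ℕ,
        (∀ d ≥ D, ∀ A : Set ℝ, IsCompact A →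
          (∀ p r : ℕ, p.Prime → r.Prime → p < r → ∀ a ∈ A, ∀ b ∈ A,
            Irrational ((p : ℝ) ^ d * a + (r : ℝ) ^ d * b) ∧
            Irrational ((p : ℝ) ^ d * a - (r : ℝ) ^ d * b)) →
          ∃ H₀ : ℕ, ∀ H ≥ H₀, ∃ N₀ : ℕ, ∀ N ≥ N₀, ∀ (x : ℕ → X) (P : ℕ → Polynomial ℝ),
            (∀ n, (P n).natDegree ≤ d ∧ (P n).coeff d ∈ A) →
            (1 / N : ℝ) * ∑ n ∈ Finset.Icc 1 N, ‖(1 / H : ℂ) * ∑ h ∈ Finset.range H,
              (ArithmeticFunction.moebius (n + h) : ℂ) * f (T^[h] (x n)) *
                Complex.exp (2 * Real.pi * Complex.I * (P n).eval (h : ℝ))‖ ≤ ε) ∧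
        ∀ k : ℝ, 0 < k →
          (∀ δ : ℝ, 0 < δ → ∀ κ : ℝ, 0 < κ → ∃ L : ℕ, 1 ≤ L ∧ ∃ F : Finset X,
            (F.card : ℝ) ≤ κ * (L : ℝ) ^ k ∧
            ∀ x : X, ∃ y ∈ F, ∑ a ∈ Finset.range L, dist (T^[a] x) (T^[a] y) ≤ δ * L) →
          D ≤ ⌈2 * k⌉₊ + 1 :=
  Pool.Agent.Lib.MP_3e612f_nt.HU.finalU hε

end Pool.Agent.Results.MP_3e612f_nt.HighDegreePhases
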