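import Pool.Agent.Lib.MP_3e612f_nt.CFinal

/-!
Ordinary averages: the Möbius function is orthogonal to the product of an irrational polynomial
phase and an arbitrary bounded function which is eventually periodic in the length of every run
of the digit `0`, uniformly in the function.
-/

set_option autoImplicit false

namespace Pool.Agent.Kept.MP_3e612f_nt.IrrationalTwist

open Filter Topology

theorem result {q m ω : ℕ} (hq : 2 ≤ q) (hω : 1 ≤ ω) (f : ℕ → ℕ → ℂ)
    (hf : ∀ N k y s : ℕ, s < q ^ k →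
      f N (q ^ (k + m + ω) * y + s) = f N (q ^ (k + m) * y + s))
    (B : ℝ) (hB : ∀ N n, ‖f N n‖ ≤ B) (P : Polynomial ℝ)
    (hP : ∃ i, 1 ≤ i ∧ Irrational (P.coeff i)) :
    Tendsto (fun N : ℕ => (1 / N : ℂ) * ∑ n ∈ Finset.Icc 1 N,
      Complex.exp (2 * Real.pi * Complex.I * P.eval (n : ℝ)) * f N n *
        (ArithmeticFunction.moebius n : ℂ)) atTop (𝓝 0) :=
  Pool.Agent.Lib.MP_3e612f_nt.CA.period_seq hq hω hf hB hP

end Pool.Agent.Kept.MP_3e612f_nt.IrrationalTwist
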