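import Pool.Agent.Lib.MP_3e612f_nt.LO.D.Bridge
import Pool.Agent.Lib.MP_3e612f_nt.LO.R.Fin2

/-!
Moebius disjointness on almost all short intervals, uniformly in the points and in a linear phase, for
every topological dynamical system whose invariant measures come from digit systems and from affine
unipotent maps of compact abelian groups.
-/

set_option autoImplicit false

namespace Pool.Agent.Results.MP_3e612f_nt.Local

open MeasureTheory Filter Topology

/-- The digit system: the sequences in `A` each of whose initial blocks occurs in some sequence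
`n ↦ ∑_{j_1, …, j_d < L} F_j (⌊n / q^(j_1)⌋ mod m, …, ⌊n / q^(j_d)⌋ mod m)`, with arbitrary `L` and
arbitrary functions `F_j`. It is a closed, shift invariant set of zero topological entropy. -/
def DigX (q m d : ℕ) (A : Type) [AddCommGroup A] : Set (ℕ → A) :=
  {x | ∀ l : ℕ, ∃ (L s : ℕ) (F : (Fin d → Fin L) → (Fin d → ℕ) → A),
    ∀ i < l, x i = ∑ j : Fin d → Fin L, F j (fun a => (i + s) / q ^ (j a : ℕ) % m)}

/-- the shift -/
def shift {A : Type} (x : ℕ → A) : ℕ → A := fun i => x (i + 1)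

/-- `χ` is a character of the topological abelian group `K` -/
def IsChar {K : Type} [AddCommGroup K] [TopologicalSpace K] (χ : K → ℂ) : Prop :=
  Continuous χ ∧ (∀ z, ‖χ z‖ = 1) ∧ ∀ z w, χ (z + w) = χ z * χ w

/-- The affine map `z ↦ U z + a` of the compact abelian group `K` is unipotent: `U` is a continuous
endomorphism (the characters of `K` separate points: always true) and for every character `χ`, (1)
`χ ∘ (U - 1)^D = 1` for some `D`; (2) if `ψ = (χ ∘ U) / χ` is `U`-invariant and not `1`, then `ψ(a)`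
is not a root of unity. All rotations (`U = 1`) and all totally ergodic maps with (1) satisfy (2). -/
def Unipotent {K : Type} [AddCommGroup K] [TopologicalSpace K] (U : K → K) (a : K) : Prop :=
  Continuous U ∧ (∀ z w, U (z + w) = U z + U w) ∧ (∀ z : K, z ≠ 0 → ∃ χ, IsChar χ ∧ χ z ≠ 1) ∧
  ∀ χ : K → ℂ, IsChar χ → (∃ D : ℕ, ∀ z, χ ((fun w => U w - w)^[D] z) = 1) ∧
    ((∀ z, χ (U (U z)) * χ z = χ (U z) ^ 2) → (∃ z, χ (U z) ≠ χ z) →
      ∀ n : ℕ, 0 < n → χ (U a) ^ n ≠ χ a ^ n)

/-- There are a joining `lam` of `ν` with an invariant measure of `T` concentrated on `D` (an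
invariant probability measure on `X × Y` with second marginal `ν`) and a continuous function `f` on
`X` with `∫ |g(y) - f(x)| d lam ≤ ε`. -/
def Near {X Y : Type} [TopologicalSpace X] [MeasurableSpace X] [MeasurableSpace Y] (T : X → X)
    (D : Set X) (S : Y → Y) (ν : Measure Y) (g : Y → ℂ) (ε : ℝ) : Prop :=
  ∃ (lam : Measure (X × Y)) (f : X → ℂ), IsProbabilityMeasure lam ∧
    MeasurePreserving (Prod.map T S) lam lam ∧ lam.map Prod.snd = ν ∧ (∀ᵐ p ∂lam, p.1 ∈ D) ∧
    Continuous f ∧ ∫ p, ‖g p.2 - f p.1‖ ∂lam ≤ ε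

/-- The invariant probability measure `ν` of `(Y, S)` is digital for `g : Y → ℂ`: for every `ε > 0`
there are a digit system `X = DigX q m d A` (`A` a finite abelian group), a unipotent affine map
`z ↦ U z + a` of a compact abelian group `K` (for instance any rotation), a joining `lam` of `ν` with
an invariant measure of `X × K` and a continuous `f` on `X × K` with `∫ |g(y) - f(x, z)| d lam ≤ ε`. -/
def Digital {Y : Type} [MeasurableSpace Y] (S : Y → Y) (ν : Measure Y) (g : Y → ℂ) : Prop :=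
  ∀ ε : ℝ, 0 < ε → ∃ (q m d : ℕ) (A : Type) (_ : AddCommGroup A) (_ : Finite A)
    (_ : TopologicalSpace A) (_ : DiscreteTopology A) (_ : MeasurableSpace A) (_ : BorelSpace A)
    (K : Type) (_ : AddCommGroup K) (_ : TopologicalSpace K) (_ : IsTopologicalAddGroup K)
    (_ : CompactSpace K) (_ : MeasurableSpace K) (_ : BorelSpace K) (U : K → K) (a : K),
    2 ≤ q ∧ 1 ≤ m ∧ 1 ≤ d ∧ Unipotent U a ∧
      Near (Prod.map shift fun z => U z + a) (DigX q m d A ×ˢ (Set.univ : Set K)) S ν g ε

/-- `ν` is a limit measure of the set `F` of sequences in `Y`: it is the weak-* limit of averages of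
the point masses at `S^n y_x`, `x < N`, `n < h`, for sequences `y ∈ F`, with `h → ∞`, `N / h → ∞`. -/
def LimitMeasure {Y : Type} [TopologicalSpace Y] [MeasurableSpace Y] (S : Y → Y) (F : Set (ℕ → Y))
    (ν : Measure Y) : Prop :=
  ∃ (N h : ℕ → ℕ) (y : ℕ → ℕ → Y), (∀ k, y k ∈ F) ∧ Tendsto h atTop atTop ∧
    Tendsto (fun k => (N k : ℝ) / (h k : ℝ)) atTop atTop ∧ ∀ φ : C(Y, ℝ),
      Tendsto (fun k => (∑ x ∈ Finset.range (N k), ∑ n ∈ Finset.range (h k), φ (S^[n] (y k x))) /
        ((N k : ℝ) * (h k : ℝ))) atTop (𝓝 (∫ z, φ z ∂ν))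

/-- Let `Y` be a compact metric space, `S : Y → Y` and `g : Y → ℂ` continuous and `F` a set of
sequences in `Y` all of whose limit measures are digital for `g`. Then for every `ε > 0`, for
`h ≥ h₀(ε)` and `N ≥ N₀(ε, h)`, for all real `α` and all `y ∈ F`:
`∑_{x < N} |∑_{n < h} g(S^n y_x) e(α n) μ(x + n)| ≤ ε h N`, `e(t) = exp(2 π i t)`.

`F` = all sequences: the limit measures are invariant measures of `(Y, S)`; for
`Y = DigX q m d A × K` they are digital by the diagonal joining. `F` = the one sequence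
`y_x = S^x y₀`: the limit measures are the measures for which `y₀` is quasi-generic. -/
theorem result (Y : Type) [MetricSpace Y] [CompactSpace Y] [MeasurableSpace Y] [BorelSpace Y]
    (S : Y → Y) (hS : Continuous S) (g : Y → ℂ) (hg : Continuous g) (F : Set (ℕ → Y))
    (hF : ∀ ν : Measure Y, IsProbabilityMeasure ν → LimitMeasure S F ν → Digital S ν g) :
    ∀ ε : ℝ, 0 < ε → ∃ h₀ : ℕ, ∀ h ≥ h₀, ∃ N₀ : ℕ, ∀ N ≥ N₀, ∀ α : ℝ, ∀ y ∈ F,
      ∑ x ∈ Finset.range N, ‖∑ n ∈ Finset.range h,
        g (S^[n] (y x)) * Complex.exp (2 * Real.pi * Complex.I * α * n) *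
          ((ArithmeticFunction.moebius (x + n) : ℤ) : ℂ)‖ ≤ ε * h * N := by
  intro ε hε
  obtain ⟨h₀, H⟩ := Pool.Agent.Lib.MP_3e612f_nt.LORT.digaff_unif
    Pool.Agent.Lib.MP_3e612f_nt.LOD.mrp S hS g hg F hF ε hε
  refine ⟨h₀, fun h hh => ?_⟩
  obtain ⟨N₀, H⟩ := H h hh
  refine ⟨N₀, fun N hN α y hy => ?_⟩
  refine le_trans (le_of_eq (Finset.sum_congr rfl fun x _ => ?_)) (H N hN α y hy)
  congr 1
  refine Finset.sum_congr rfl fun n _ => ?_
  have e : Complex.exp (2 * Real.pi * Complex.I * α * n) =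
      Pool.Agent.Lib.MP_3e612f_nt.LORT.ev (α * n) := by
    unfold Pool.Agent.Lib.MP_3e612f_nt.LORT.ev
    congr 1
    push_cast
    ring
  rw [e]
  show g (S^[n] (y x)) * Pool.Agent.Lib.MP_3e612f_nt.LORT.ev (α * n) *
    Pool.Agent.Lib.MP_3e612f_nt.PI.mc (x + n) = _
  ring

end Pool.Agent.Results.MP_3e612f_nt.Local
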