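import Pool.Agent.Lib.MP_3e612f_nt.LV.SubG
import Pool.Agent.Lib.MP_3e612f_nt.LV.SubF
import Pool.Agent.Lib.MP_3e612f_nt.LV.AuSub
import Pool.Agent.Lib.MP_3e612f_nt.LV.AuEnt
import Pool.Agent.Lib.MP_3e612f_nt.LO.D.Bridge

/-!
The short interval (local) form of Sarnak's conjecture, with linear phases, for products of subshifts of
automatic sequences and of universal subshifts of digit products with values in finite groups, for pairwise
coprime bases.
-/

set_option autoImplicit false

namespace Pool.Agent.Results.MP_3e612f_nt.LocalUniversal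

open Pool.Agent.Lib.MP_3e612f_nt
open Pool.Agent.Lib.MP_3e612f_nt.LU

/-- Let `G 0, …, G (r - 1)` be finite groups and `B ≥ 2`, and let `a 0, …, a (s - 1)` be automatic sequences with values
in finite sets `A j` for the pairwise coprime bases `b j ≥ 2` (the kernel, the set of the sequences
`n ↦ a j (b j ^ l * n + v)`, `v < b j ^ l`, is finite). For radices `2 ≤ q i l ≤ B` let `X i (q i)` be the set of all
sequences `x` in `G i` such that every initial block of `x` occurs in some sequence
`n ↦ g 0 (n₀) * g 1 (n₁) * ⋯ * g (L - 1) (n_{L-1})`, where `n_l = ⌊n / (q i 0 ⋯ q i (l - 1))⌋ mod q i l`, and let `Z j` be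
the set of all sequences whose initial blocks occur in `a j`. Let
`Y q = ∏ i, X i (q i) × ∏ j, Z j`, with the shift `T` of all coordinates. Then every `Y q` is a nonempty closed
invariant set of zero topological entropy, and for every continuous `f` and `ε > 0` there is `H₀`, and for `H ≥ H₀`
there is `N₀`, such that for `N ≥ N₀`, for all radices `q` such that those of different factors are coprime and coprime to
the `b j`, all real `α` and all points `x_n` of `Y q`:
`∑_{n < N} |∑_{h < H} μ(n + h) f(T^h x_n) e(α h)| ≤ ε H N`. -/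
theorem result {r s : ℕ} (G : Fin r → Type) [∀ i, Group (G i)] [∀ i, Finite (G i)]
    [∀ i, UniformSpace (G i)] [∀ i, DiscreteUniformity (G i)]
    (A : Fin s → Type) [∀ j, Finite (A j)] [∀ j, UniformSpace (A j)]
    [∀ j, DiscreteUniformity (A j)] (B : ℕ) (hB : 2 ≤ B) (b : Fin s → ℕ) (hb : ∀ j, 2 ≤ b j)
    (hbc : ∀ j j', j ≠ j' → Nat.Coprime (b j) (b j')) (a : (j : Fin s) → ℕ → A j)
    (ha : ∀ j, {y : ℕ → A j | ∃ l v : ℕ, v < b j ^ l ∧ ∀ n, y n = a j (b j ^ l * n + v)}.Finite) :
    let X : (i : Fin r) → (ℕ → ℕ) → Set (ℕ → G i) := fun i q =>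
      {x | ∀ l : ℕ, ∃ (g : ℕ → ℕ → G i) (L t : ℕ), ∀ m < l, x m = ((List.range L).map fun c =>
        g c ((m + t) / (∏ k ∈ Finset.range c, q k) % q c)).prod}
    let Z : (j : Fin s) → Set (ℕ → A j) := fun j =>
      {x | ∀ l : ℕ, ∃ t : ℕ, ∀ m < l, x m = a j (m + t)}
    let Y : (Fin r → ℕ → ℕ) → Set (((i : Fin r) → ℕ → G i) × ((j : Fin s) → ℕ → A j)) := fun q =>
      {x | (∀ i, x.1 i ∈ X i (q i)) ∧ ∀ j, x.2 j ∈ Z j}
    let T : ((i : Fin r) → ℕ → G i) × ((j : Fin s) → ℕ → A j) →
        ((i : Fin r) → ℕ → G i) × ((j : Fin s) → ℕ → A j) := fun x =>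
      (fun i n => x.1 i (n + 1), fun j n => x.2 j (n + 1))
    (∀ q : Fin r → ℕ → ℕ, (∀ i l, 2 ≤ q i l ∧ q i l ≤ B) →
      (Y q).Nonempty ∧ IsClosed (Y q) ∧ Set.MapsTo T (Y q) (Y q) ∧
        Dynamics.coverEntropy T (Y q) = 0) ∧
    ∀ f : ((i : Fin r) → ℕ → G i) × ((j : Fin s) → ℕ → A j) → ℂ, Continuous f →
      ∀ ε : ℝ, 0 < ε → ∃ H₀ : ℕ, ∀ H ≥ H₀, ∃ N₀ : ℕ, ∀ N ≥ N₀, ∀ q : Fin r → ℕ → ℕ,
        (∀ i l, 2 ≤ q i l ∧ q i l ≤ B) →
        (∀ i i', i ≠ i' → ∀ l l', Nat.Coprime (q i l) (q i' l')) →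
        (∀ i l j, Nat.Coprime (q i l) (b j)) →
        ∀ (α : ℝ) (x : ℕ → ((i : Fin r) → ℕ → G i) × ((j : Fin s) → ℕ → A j)), (∀ n, x n ∈ Y q) →
          ∑ n ∈ Finset.range N, ‖∑ h ∈ Finset.range H,
            ((ArithmeticFunction.moebius (n + h) : ℤ) : ℂ) * f (T^[h] (x n)) *
              Complex.exp (2 * Real.pi * α * h * Complex.I)‖ ≤ ε * H * N := by
  intro X Z Y T
  have hX : ∀ i q, X i q = XQ (G i) q := by
    intro i q
    ext x
    show (∀ l : ℕ, ∃ (g : ℕ → ℕ → G i) (L t : ℕ), ∀ m < l, x m = ((List.range L).map fun c =>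
        g c ((m + t) / (∏ k ∈ Finset.range c, q k) % q c)).prod) ↔ _
    simp only [Pool.Agent.Lib.MP_3e612f_nt.PB.list_eq_hw]
    rfl
  have hZ : ∀ j, Z j = LV.XA (a j) := fun j => rfl
  have hY : ∀ q, Y q = {x | (∀ i, x.1 i ∈ XQ (G i) (q i)) ∧ ∀ j, x.2 j ∈ LV.XA (a j)} := by
    intro q
    show {x : ((i : Fin r) → ℕ → G i) × ((j : Fin s) → ℕ → A j) |
      (∀ i, x.1 i ∈ X i (q i)) ∧ ∀ j, x.2 j ∈ Z j} = _
    simp only [hX, hZ]
  have hT : ∀ (n : ℕ) (x : ((i : Fin r) → ℕ → G i) × ((j : Fin s) → ℕ → A j)),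
      T^[n] x = (fun i m => x.1 i (m + n), fun j m => x.2 j (m + n)) := by
    intro n
    induction n with
    | zero => intro x; rfl
    | succ n ih =>
      intro x
      rw [Function.iterate_succ_apply, ih]
      refine Prod.ext ?_ ?_
      · funext i m
        show x.1 i (m + n + 1) = x.1 i (m + (n + 1))
        rfl
      · funext i m
        show x.2 i (m + n + 1) = x.2 i (m + (n + 1))
        rfl
  have hne : ∀ q : Fin r → ℕ → ℕ, (Y q).Nonempty := by
    intro q
    rw [hY]
    exact ⟨(fun i _ => 1, a), fun i => XQ_nonempty (G i) (q i), fun j => LV.XA_nonempty (a j)⟩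
  -- the family indexed by the sum
  let uC : ∀ i : Fin r ⊕ Fin s, UniformSpace (Sum.elim G A i) := fun i =>
    match i with
    | .inl i => inferInstanceAs (UniformSpace (G i))
    | .inr j => inferInstanceAs (UniformSpace (A j))
  have dC : ∀ i : Fin r ⊕ Fin s, DiscreteUniformity (Sum.elim G A i) := fun i =>
    match i with
    | .inl i => inferInstanceAs (DiscreteUniformity (G i))
    | .inr j => inferInstanceAs (DiscreteUniformity (A j))
  have fC : ∀ i : Fin r ⊕ Fin s, Finite (Sum.elim G A i) := fun i =>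
    match i with
    | .inl i => inferInstanceAs (Finite (G i))
    | .inr j => inferInstanceAs (Finite (A j))
  let φ : ((i : Fin r ⊕ Fin s) → ℕ → Sum.elim G A i) →
      ((i : Fin r) → ℕ → G i) × ((j : Fin s) → ℕ → A j) := fun y =>
    (fun i => y (.inl i), fun j => y (.inr j))
  let ψ : ((i : Fin r) → ℕ → G i) × ((j : Fin s) → ℕ → A j) →
      ((i : Fin r ⊕ Fin s) → ℕ → Sum.elim G A i) := fun x i =>
    match i with
    | .inl i => x.1 i
    | .inr j => x.2 j
  have hφψ : ∀ x, φ (ψ x) = x := fun x => rfl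
  have hφu : UniformContinuous φ := by
    refine UniformContinuous.prodMk ?_ ?_
    · exact uniformContinuous_pi.2 fun i => Pi.uniformContinuous_proj _ (Sum.inl i)
    · exact uniformContinuous_pi.2 fun j => Pi.uniformContinuous_proj _ (Sum.inr j)
  refine ⟨fun q hq => ⟨hne q, ?_, ?_, ?_⟩, fun f hf ε hε => ?_⟩
  · rw [hY]
    have h : {x : ((i : Fin r) → ℕ → G i) × ((j : Fin s) → ℕ → A j) |
        (∀ i, x.1 i ∈ XQ (G i) (q i)) ∧ ∀ j, x.2 j ∈ LV.XA (a j)} =
        (⋂ i, (fun x : ((i : Fin r) → ℕ → G i) × ((j : Fin s) → ℕ → A j) => x.1 i) ⁻¹'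
          (XQ (G i) (q i))) ∩
        ⋂ j, (fun x : ((i : Fin r) → ℕ → G i) × ((j : Fin s) → ℕ → A j) => x.2 j) ⁻¹'
          (LV.XA (a j)) := by
      ext x
      simp
    rw [h]
    refine IsClosed.inter (isClosed_iInter fun i => ?_) (isClosed_iInter fun j => ?_)
    · exact (XQ_closed (G i) (q i)).preimage ((continuous_apply i).comp continuous_fst)
    · exact (LV.XA_closed (a j)).preimage ((continuous_apply j).comp continuous_snd)
  · intro x hx
    rw [hY] at hx ⊢
    exact ⟨fun i => XQ_shift (hx.1 i) 1, fun j => LV.XA_shift (hx.2 j) 1⟩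
  · refine le_antisymm ?_ (Dynamics.coverEntropy_nonneg _ (hne q))
    let XX : (i : Fin r ⊕ Fin s) → Set (ℕ → Sum.elim G A i) := fun i =>
      match i with
      | .inl i => XQ (G i) (q i)
      | .inr j => LV.XA (a j)
    have h1 := LV.prod_entropyW (Sum.elim G A) XX
      (fun i => match i with
        | .inl i => LV.words_group (G i) hB (hq i)
        | .inr j => LV.words_auto (hb j) (ha j))
      (fun i => match i with
        | .inl i => ⟨fun _ => (1 : G i), XQ_nonempty (G i) (q i)⟩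
        | .inr j => ⟨a j, LV.XA_nonempty (a j)⟩)
      (fun i => match i with
        | .inl i => fun x hx => XQ_shift hx 1
        | .inr j => fun x hx => LV.XA_shift hx 1)
    have h2 : Y q = φ '' {x | ∀ i, x i ∈ XX i} := by
      rw [hY]
      ext x
      constructor
      · intro hx
        refine ⟨ψ x, fun i => ?_, hφψ x⟩
        match i with
        | .inl i => exact hx.1 i
        | .inr j => exact hx.2 j
      · rintro ⟨y, hy, rfl⟩
        exact ⟨fun i => hy (.inl i), fun j => hy (.inr j)⟩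
    rw [h2, ← h1]
    refine Dynamics.coverEntropy_image_le_of_uniformContinuous (fun y => ?_) hφu _
    rfl
  · let XX : (i : Fin r ⊕ Fin s) → (ℕ → ℕ) → Set (ℕ → Sum.elim G A i) := fun i =>
      match i with
      | .inl i => XQ (G i)
      | .inr j => fun q => {x | (∀ l, q l = b j) ∧ x ∈ LV.XA (a j)}
    obtain ⟨H₀, h0⟩ := LV.sub_multiF LOD.mrp (Sum.elim G A) (Sum.elim (fun _ => B) b) XX
      (fun i => match i with
        | .inl i => (LV.sub_group (G i) B).toR
        | .inr j => LV.sub_auto (hb j) (ha j)) (fun y => f (φ y)) (hf.comp hφu.continuous) hε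
    refine ⟨H₀, fun H hH => ?_⟩
    obtain ⟨N₀, h1⟩ := h0 H hH
    refine ⟨N₀, fun N hN q hq hcop hcopb α x hx => ?_⟩
    have h2 := h1 N hN (Sum.elim q fun j _ => b j)
      (fun i => match i with
        | .inl i => hq i
        | .inr j => fun _ => ⟨hb j, le_rfl⟩)
      (fun i i' => match i, i' with
        | .inl i, .inl i' => fun h l l' => hcop i i' (fun e => h (by rw [e])) l l'
        | .inl i, .inr j => fun _ l _ => hcopb i l j
        | .inr j, .inl i => fun _ _ l => (hcopb i l j).symm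
        | .inr j, .inr j' => fun h _ _ => hbc j j' (fun e => h (by rw [e]))) α
      (fun n => ψ (x n)) (fun n i => by
        have h3 := hx n
        rw [hY] at h3
        match i with
        | .inl i => exact h3.1 i
        | .inr j => exact ⟨fun _ => rfl, h3.2 j⟩)
    simp only [hT]
    refine le_trans (le_of_eq ?_) h2
    refine Finset.sum_congr rfl fun n _ => ?_
    congr 1
    refine Finset.sum_congr rfl fun k _ => ?_
    have e : Complex.exp (2 * Real.pi * α * k * Complex.I) = LORT.ev (α * k) := by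
      unfold LORT.ev
      congr 1
      push_cast
      ring
    rw [e, mul_assoc]
    rfl

end Pool.Agent.Results.MP_3e612f_nt.LocalUniversal
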