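import Pool.Agent.Lib.MP_3e612f_nt.NF.G.NilErg

/-! Moebius disjointness on almost all short intervals, uniformly in the points, for all topological systems whose ergodic measures are modelled by nilsystems with all frequencies in a null set. -/

set_option autoImplicit false

namespace Pool.Agent.Results.MP_3e612f_nt.NilErgodic

open MeasureTheory Filter Topology ProbabilityTheory
open Pool.Agent.Lib.MP_3e612f_nt.NF (dot LL MalZ NilMfd)

/-- There are a joining `lam` of `ν` with an invariant measure of `(X, T)` (an invariant Borel probability measure on `X × Y` with second marginal `ν`) and a continuous function `f` on `X` with `∫ |g(y) - f(x)| d lam ≤ ε`. -/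
def Near {X Y : Type} [TopologicalSpace X] [MeasurableSpace Y] (T : X → X) (S : Y → Y) (ν : Measure Y) (g : Y → ℂ) (ε : ℝ) : Prop :=
  ∃ (_ : MeasurableSpace X) (_ : BorelSpace X) (f : X → ℂ) (lam : Measure (X × Y)), Continuous f ∧ IsProbabilityMeasure lam ∧
    MeasurePreserving (Prod.map T S) lam lam ∧ lam.map Prod.snd = ν ∧ ∫ p, ‖g p.2 - f p.1‖ ∂lam ≤ ε

/-- All frequencies `m · p₀(u_q … u_0)`, `0 ≠ m ∈ ℤ^d`, of the return rotation `u_q … u_0` are irrational and in `E`, and it is not in `{n = 0}` (unless `n = 0` on `G`). -/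
def FreqIn {G : Type} [Group G] [TopologicalSpace G] {Γ : Subgroup G} {k : ℕ} (M : MalZ G Γ k) {q : ℕ} (u : Fin (q + 1) → G) (E : Set ℝ) : Prop :=
  ((∀ x, M.n x = 0) ∨ ∑ j, M.n (u j) ≠ 0) ∧ ∀ m : M.I 0 → ℤ, m ≠ 0 → ∑ j, dot m (M.p 0 (u j)) ∈ E ∧ ∀ r : ℚ, ∑ j, dot m (M.p 0 (u j)) ≠ r

/-- The measure `ν` is modelled, for `g`, by nilsystems on the nilmanifolds `G/Γ` of the list `𝒩` with all frequencies in `E`: for every `ε > 0` it is `ε`-near (in the sense of `Near`) to a system `T(j, x) = (j + 1, u_j x)` on `{0, …, q} × G/Γ` (`j + 1` modulo `q + 1`) with `FreqIn M u E`. -/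
def Modelled {Y : Type} [MeasurableSpace Y] (S : Y → Y) (g : Y → ℂ) (𝒩 : ℕ → NilMfd) (E : Set ℝ) (ν : Measure Y) : Prop :=
  ∀ ε : ℝ, 0 < ε → ∃ (i q : ℕ) (u : Fin (q + 1) → (𝒩 i).G), FreqIn (𝒩 i).M u E ∧
    Near (fun z : Fin (q + 1) × ((𝒩 i).G ⧸ (𝒩 i).Γ) => ((z.1 + 1, u z.1 • z.2) : Fin (q + 1) × ((𝒩 i).G ⧸ (𝒩 i).Γ))) S ν g ε

/-- `ν` is a limit measure of the set `F` of sequences in `Y`: it is the weak-* limit of averages of the point masses at `S^n y_x`, `x < N`, `n < h`, for sequences `y ∈ F`, with `h → ∞`, `N / h → ∞`. (All limit measures are invariant; for `F` = all sequences they are the invariant measures.) -/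
def LimitMeasure {Y : Type} [TopologicalSpace Y] [MeasurableSpace Y] (S : Y → Y) (F : Set (ℕ → Y)) (ν : Measure Y) : Prop :=
  ∃ (N h : ℕ → ℕ) (y : ℕ → ℕ → Y), (∀ k, y k ∈ F) ∧ Tendsto h atTop atTop ∧
    Tendsto (fun k => (N k : ℝ) / (h k : ℝ)) atTop atTop ∧ ∀ φ : C(Y, ℝ),
      Tendsto (fun k => (∑ x ∈ Finset.range (N k), ∑ n ∈ Finset.range (h k), φ (S^[n] (y k x))) /
        ((N k : ℝ) * (h k : ℝ))) atTop (𝓝 (∫ z, φ z ∂ν))

/-- Let `Y` be a compact metric space, `S : Y → Y` and `g : Y → ℂ` continuous and `F` a set of sequences in `Y`. Suppose that for every limit measure `ν` of `F` there are a list of nilmanifolds and a Lebesgue null set `E` such that almost every ergodic component of `ν` (conditional measure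
with respect to the σ-algebra of the invariant sets) is modelled by nilsystems on these nilmanifolds with all frequencies in `E`. Then for every `ε > 0`, for `h ≥ h₀(ε)` and `N ≥ N₀(ε, h)`, for all `y ∈ F`: `∑_{x < N} |∑_{n < h} μ(x + n) g(S^n y_x)| ≤ ε h N`. -/
theorem result (Y : Type) [MetricSpace Y] [CompactSpace Y] [MeasurableSpace Y] [BorelSpace Y]
    (S : Y → Y) (hS : Continuous S) (g : Y → ℂ) (hg : Continuous g) (F : Set (ℕ → Y))
    (hF : ∀ (ν : Measure Y) (_ : IsProbabilityMeasure ν), LimitMeasure S F ν → ∃ (𝒩 : ℕ → NilMfd) (E : Set ℝ), volume E = 0 ∧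
      ∀ᵐ y ∂ν, Ergodic S (condExpKernel ν (MeasurableSpace.invariants S) y) → Modelled S g 𝒩 E (condExpKernel ν (MeasurableSpace.invariants S) y)) :
    ∀ ε : ℝ, 0 < ε → ∃ h₀ : ℕ, ∀ h ≥ h₀, ∃ N₀ : ℕ, ∀ N ≥ N₀, ∀ y ∈ F,
      ∑ x ∈ Finset.range N, ‖∑ n ∈ Finset.range h, ((ArithmeticFunction.moebius (x + n) : ℤ) : ℂ) * g (S^[n] (y x))‖ ≤ ε * h * N := by
  refine Pool.Agent.Lib.MP_3e612f_nt.NF.nil_erg S hS g hg F fun ν hν hD => ?_
  obtain ⟨𝒩, E, hE, h1⟩ := hF ν hν hD
  refine ⟨𝒩, E, hE, ?_⟩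
  filter_upwards [h1] with y hy herg ε hε
  obtain ⟨i, q, u, hu, m, hb, f, lam, hf, h2⟩ := hy herg ε hε
  exact ⟨i, q, u, hu, m, hb, f, lam, hf, h2⟩

end Pool.Agent.Results.MP_3e612f_nt.NilErgodic
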