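import Pool.Agent.Lib.MP_3e612f_nt.NF.X.Models

/-! Moebius disjointness on almost all short intervals, uniformly in the points, for all topological systems whose invariant measures are modelled by families of nilrotations with null sets of frequencies. -/

set_option autoImplicit false

namespace Pool.Agent.Kept.MP_3e612f_nt.NilModels

open MeasureTheory Filter Topology
open Pool.Agent.Lib.MP_3e612f_nt.NF (dot LL Mal)

/-- There are a joining `lam` of `ν` with an invariant measure of `(E, T)` (an invariant Borel probability measure on `E × Y` with second marginal `ν`) and a continuous function `f` on `E` with `∫ |g(y) - f(x)| d lam ≤ ε`. -/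
def Near {E Y : Type} [TopologicalSpace E] [MeasurableSpace Y] (T : E → E) (S : Y → Y) (ν : Measure Y) (g : Y → ℂ) (ε : ℝ) : Prop :=
  ∃ (_ : MeasurableSpace E) (_ : BorelSpace E) (lam : Measure (E × Y)) (f : E → ℂ), IsProbabilityMeasure lam ∧
    MeasurePreserving (Prod.map T S) lam lam ∧ lam.map Prod.snd = ν ∧ Continuous f ∧ ∫ p, ‖g p.2 - f p.1‖ ∂lam ≤ ε

/-- The map `T(w, x) = (τ w, u(w) x)` on `W × G/Γ` is a null family of nilrotations: `G` is nilpotent with Mal'cev data `M` for `Γ`, `τ^Q = 1`, `τ`, `u` are continuous, and for `0 ≠ m ∈ ℤ^d` the set of the frequencies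
`m · p₀(u(τ^(Q-1) w) … u(w))`, `w ∈ W`, of the return maps is a null set, without rational numbers unless `k = 1` (`G = ℝ^d`, `G/Γ` a torus). -/
def NullFamily {G : Type} [Group G] [TopologicalSpace G] {Γ : Subgroup G} {k : ℕ} (M : Mal G Γ k) {W : Type} [TopologicalSpace W] (τ : W → W) (u : W → G) (Q : ℕ) : Prop :=
  1 ≤ k ∧ LL G k = ⊥ ∧ Continuous τ ∧ Continuous u ∧ 1 ≤ Q ∧ (∀ w, τ^[Q] w = w) ∧
    ∀ m : M.I 0 → ℤ, m ≠ 0 → volume {x : ℝ | ∃ w, x = ∑ i ∈ Finset.range Q, dot m (M.p 0 (u (τ^[i] w)))} = 0 ∧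
      (k = 1 ∨ ∀ (w : W) (q : ℚ), ∑ i ∈ Finset.range Q, dot m (M.p 0 (u (τ^[i] w))) ≠ q)

/-- The invariant probability measure `ν` of `(Y, S)` is modelled by null families of nilrotations, for `g : Y → ℂ`: for every `ε > 0` there are such a family over a compact metric space `W` (all data may depend on `ν` and `ε`), a joining of `ν` with one of its invariant measures
and a continuous function `f` on it with `∫ |g - f| ≤ ε`. -/
def Modelled {Y : Type} [MeasurableSpace Y] (S : Y → Y) (ν : Measure Y) (g : Y → ℂ) : Prop :=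
  ∀ ε : ℝ, 0 < ε → ∃ (G : Type) (_ : Group G) (_ : TopologicalSpace G) (_ : IsTopologicalGroup G) (Γ : Subgroup G) (k : ℕ) (M : Mal G Γ k)
    (W : Type) (_ : MetricSpace W) (_ : CompactSpace W) (τ : W → W) (u : W → G) (Q : ℕ), NullFamily M τ u Q ∧
      Near (fun z : W × (G ⧸ Γ) => ((τ z.1, u z.1 • z.2) : W × (G ⧸ Γ))) S ν g ε

/-- `ν` is a limit measure of the set `F` of sequences in `Y`: it is the weak-* limit of averages of the point masses at `S^n y_x`, `x < N`, `n < h`, for sequences `y ∈ F`, with `h → ∞`, `N / h → ∞`. (All limit measures are invariant; for `F` = all sequences they are the invariant measures.) -/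
def LimitMeasure {Y : Type} [TopologicalSpace Y] [MeasurableSpace Y] (S : Y → Y) (F : Set (ℕ → Y)) (ν : Measure Y) : Prop :=
  ∃ (N h : ℕ → ℕ) (y : ℕ → ℕ → Y), (∀ k, y k ∈ F) ∧ Tendsto h atTop atTop ∧
    Tendsto (fun k => (N k : ℝ) / (h k : ℝ)) atTop atTop ∧ ∀ φ : C(Y, ℝ),
      Tendsto (fun k => (∑ x ∈ Finset.range (N k), ∑ n ∈ Finset.range (h k), φ (S^[n] (y k x))) /
        ((N k : ℝ) * (h k : ℝ))) atTop (𝓝 (∫ z, φ z ∂ν))

/-- Let `Y` be a compact metric space, `S : Y → Y` and `g : Y → ℂ` continuous and `F` a set of sequences in `Y` all of whose limit measures are modelled by null families of nilrotations. Then for every `ε > 0`, for `h ≥ h₀(ε)` and `N ≥ N₀(ε, h)`, for all `y ∈ F`: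
`∑_{x < N} |∑_{n < h} μ(x + n) g(S^n y_x)| ≤ ε h N`. -/
theorem result (Y : Type) [MetricSpace Y] [CompactSpace Y] [MeasurableSpace Y] [BorelSpace Y]
    (S : Y → Y) (hS : Continuous S) (g : Y → ℂ) (hg : Continuous g) (F : Set (ℕ → Y))
    (hF : ∀ ν : Measure Y, IsProbabilityMeasure ν → LimitMeasure S F ν → Modelled S ν g) :
    ∀ ε : ℝ, 0 < ε → ∃ h₀ : ℕ, ∀ h ≥ h₀, ∃ N₀ : ℕ, ∀ N ≥ N₀, ∀ y ∈ F,
      ∑ x ∈ Finset.range N, ‖∑ n ∈ Finset.range h, ((ArithmeticFunction.moebius (x + n) : ℤ) : ℂ) * g (S^[n] (y x))‖ ≤ ε * h * N := by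
  refine Pool.Agent.Lib.MP_3e612f_nt.NF.models_nil S hS g hg F fun ν hν hD ε hε => ?_
  obtain ⟨G, i1, i2, i3, Γ, k, M, W, i4, i5, τ, u, Q, ⟨h1, h2, h3, h4, h5, h6, h7⟩, hm, hb, lam, f, h8, h9, h10, h11, h12⟩ := hF ν hν hD ε hε
  exact ⟨G, i1, i2, i3, Γ, k, M, W, i4, i5, τ, Q, u, h1, h2, h3, h5, h6, h4, h7, hm, hb, lam, f, h8, h9, h10, h11, h12⟩

end Pool.Agent.Kept.MP_3e612f_nt.NilModels
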