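import Pool.Agent.Lib.MP_3e612f_nt.PI.UXB
import Pool.Agent.Lib.MP_3e612f_nt.PI.UXE

/-!
Sarnak's conjecture, uniformly in the point, for the universal subshift of all phases with pair
interactions of digit windows.
-/

set_option autoImplicit false

namespace Pool.Agent.Results.MP_3e612f_nt.PairInteractions

open Pool.Agent.Lib.MP_3e612f_nt.PI

/-- Let `q ≥ 2`, `D ≥ 0`, and let `A` be a finite abelian group with `q ^ κ • A = 0`. For `n ∈ ℕ` let
`w_i(n) = ⌊n / q^i⌋ mod q^(D+1)`, the base `q` digits of `n` at the positions `i, …, i + D`. Let `X` be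
the set of all sequences `x` in `A` such that every initial block of `x` occurs in some sequence
`n ↦ ∑_{i, j < L} F i j (w_i(n)) (w_j(n))`, with arbitrary `L` and arbitrary functions `F i j`. Then `X`
is a nonempty subshift of zero topological entropy, and for every continuous function `f` on `X` the
averages of `f (T^n x) μ(n)` over `n ≤ N` tend to `0` uniformly in `x ∈ X`. -/
theorem result (q D κ : ℕ) (hq : 2 ≤ q) (A : Type) [AddCommGroup A] [Finite A] [UniformSpace A]
    [DiscreteUniformity A] (hA : ∀ a : A, (q ^ κ) • a = 0) :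
    let X : Set (ℕ → A) := {x | ∀ l : ℕ, ∃ (F : ℕ → ℕ → ℕ → ℕ → A) (L s : ℕ),
      ∀ i < l, x i = ∑ j ∈ Finset.range L, ∑ k ∈ Finset.range L,
        F j k ((i + s) / q ^ j % q ^ (D + 1)) ((i + s) / q ^ k % q ^ (D + 1))}
    let T : (ℕ → A) → ℕ → A := fun x i => x (i + 1)
    X.Nonempty ∧ IsClosed X ∧ Set.MapsTo T X X ∧ Dynamics.coverEntropy T X = 0 ∧
      ∀ f : (ℕ → A) → ℂ, ContinuousOn f X → ∀ ε : ℝ, 0 < ε → ∃ N₀ : ℕ, ∀ N ≥ N₀, ∀ x ∈ X,
        ‖∑ n ∈ Finset.Icc 1 N, f (T^[n] x) * ((ArithmeticFunction.moebius n : ℤ) : ℂ)‖ ≤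
          ε * N := by
  intro X T
  have hX : X = UXP q D A := rfl
  have hT : ∀ (n : ℕ) (x : ℕ → A), T^[n] x = fun i => x (i + n) := by
    intro n
    induction n with
    | zero => intro x; rfl
    | succ n ih =>
      intro x
      rw [Function.iterate_succ_apply, ih]
      funext i
      show x (i + n + 1) = x (i + (n + 1))
      rfl
  have hTX : Set.MapsTo T X X := by
    intro x hx
    rw [hX] at hx ⊢
    exact UXP_shift hx 1
  refine ⟨?_, ?_, hTX, ?_, ?_⟩
  · rw [hX]
    exact ⟨_, UXP_nonempty q D⟩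
  · rw [hX]
    exact UXP_closed q D
  · rw [hX]
    exact UXP_entropy q D hq A
  · intro f hf ε hε
    rw [hX] at hf
    obtain ⟨N₀, hN₀⟩ := UXP_main q D κ hq A hA f hf hε
    refine ⟨N₀, fun N hN x hx => ?_⟩
    rw [hX] at hx
    have h := hN₀ N hN x hx
    have e : ∑ n ∈ Finset.Icc 1 N, f (T^[n] x) * ((ArithmeticFunction.moebius n : ℤ) : ℂ) =
        ∑ n ∈ Finset.Icc 1 N, mc n * f (fun i => x (i + n)) := by
      refine Finset.sum_congr rfl fun n _ => ?_
      rw [hT n x, mul_comm]
      rfl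
    rw [e]
    exact h

end Pool.Agent.Results.MP_3e612f_nt.PairInteractions
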