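import Pool.Agent.Lib.MP_3e612f_nt.PB.Final

/-!
The Moebius function is asymptotically orthogonal, uniformly, to everything that is computed from
the digits by a product in a fixed finite group: arbitrary bounded mixed radices, arbitrary digit
maps (no periodicity in the position), arbitrary length (read-once permutation branching programs
of bounded width; non-uniform invertible automata).
-/

set_option autoImplicit false

namespace Pool.Agent.Lib.MP_3e612f_nt.Kept.PermutationPrograms

theorem result (G : Type) [Group G] [Finite G] (B : ℕ) (ε : ℝ) (hε : 0 < ε) :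
    ∃ N₀ : ℕ, ∀ N ≥ N₀, ∀ q : ℕ → ℕ, (∀ j, 2 ≤ q j ∧ q j ≤ B) → ∀ (g : ℕ → ℕ → G) (L : ℕ)
      (F : G → ℂ), (∀ x, ‖F x‖ ≤ 1) →
      ‖∑ n ∈ Finset.Icc 1 N, ((ArithmeticFunction.moebius n : ℤ) : ℂ) *
        F ((List.range L).map fun j =>
          g j (n / (∏ i ∈ Finset.range j, q i) % q j)).prod‖ ≤ ε * N :=
  Pool.Agent.Lib.MP_3e612f_nt.PB.main_complex G B hε

end Pool.Agent.Lib.MP_3e612f_nt.Kept.PermutationPrograms
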