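import Pool.Agent.Lib.MP_3e612f_nt.NF.X.MomoFull
import Pool.Agent.Lib.MP_3e612f_nt.NF.S.Cpt

/-! Skew products of nilrotations over a base whose invariant measures are carried by fixed points: strong local form of Sarnak's conjecture. -/

set_option autoImplicit false

namespace Pool.Agent.Results.MP_3e612f_nt.SkewNil

open Finset
open Pool.Agent.Lib.MP_3e612f_nt.NF (dot LL Mal)

/-- `G` a nilpotent topological group, `Γ` a subgroup with Mal'cev data `M`, `Y` a compact metric space, `S : Y → Y` continuous such that all orbits spend asymptotically all their time, uniformly in the point, in every neighbourhood of the set of fixed points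
(equivalently all invariant measures of `S` are carried by fixed points), `g : Y → G` continuous such that for `0 ≠ m ∈ ℤ^d` the set of the frequencies `m · p₀(g(y))`, `y` a fixed point of `S`, is a null set without rational numbers. Then for the skew product `T(y, x) = (S y, g(y) x)` on `Y × G/Γ` and continuous `F`
the Moebius function does not correlate with `F(T^h p)` on almost all short intervals, the supremum over all points `p` inside the (ordinary) average, uniformly for `H₀ ≤ H ≤ N`. -/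
theorem result {G : Type} [Group G] [TopologicalSpace G] [IsTopologicalGroup G] {Γ : Subgroup G} {k : ℕ} (hk1 : 1 ≤ k) (M : Mal G Γ k) (hk : LL G k = ⊥)
    {Y : Type} [MetricSpace Y] [CompactSpace Y] (S : Y → Y) (hS : Continuous S)
    (hfix : ∀ U : Set Y, IsOpen U → (∀ y, S y = y → y ∈ U) → ∀ ε : ℝ, 0 < ε → ∃ N₀ : ℕ, ∀ N : ℕ, N₀ ≤ N → ∀ y : Y,
      ((Nat.card {n : ℕ // n < N ∧ S^[n] y ∉ U} : ℕ) : ℝ) ≤ ε * N)
    (g : Y → G) (hg : Continuous g)
    (hfr : ∀ m : M.I 0 → ℤ, m ≠ 0 → MeasureTheory.volume {x : ℝ | ∃ y, S y = y ∧ x = dot m (M.p 0 (g y))} = 0 ∧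
      ∀ y, S y = y → ∀ q : ℚ, dot m (M.p 0 (g y)) ≠ q)
    (F : Y × (G ⧸ Γ) → ℂ) (hF : Continuous F) (ε : ℝ) (hε : 0 < ε) :
    ∃ H₀ : ℕ, ∀ H N : ℕ, H₀ ≤ H → H ≤ N → ∀ p : ℕ → Y × (G ⧸ Γ),
      ∑ n ∈ Icc 1 N, ‖∑ h ∈ Icc 1 H, ((ArithmeticFunction.moebius (n + h) : ℤ) : ℂ) *
        F ((fun z : Y × (G ⧸ Γ) => ((S z.1, g z.1 • z.2) : Y × (G ⧸ Γ)))^[h] (p n))‖ ≤ ε * H * N := by
  have hF' : Continuous fun z : Y × G => F (z.1, (z.2 : G ⧸ Γ)) :=
    hF.comp (continuous_fst.prodMk (QuotientGroup.continuous_mk.comp continuous_snd))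
  obtain ⟨H₀, h1⟩ := Pool.Agent.Lib.MP_3e612f_nt.NF.part_sf M hk S hS hfix g hg
    (fun m hm => Pool.Agent.Lib.MP_3e612f_nt.NF.fr_cpt M hk1 S hS g hg m (hfr m hm).1 (hfr m hm).2)
    (fun z : Y × G => F (z.1, (z.2 : G ⧸ Γ))) hF' (by
    intro y x γ hγ
    simp only
    rw [QuotientGroup.mk_mul_of_mem x hγ]) ε hε
  refine ⟨H₀, fun H N hH hN p => ?_⟩
  have hlift : ∃ a : ℕ → G, ∀ n, (p n).2 = (a n : G ⧸ Γ) := by
    choose a ha using fun n => QuotientGroup.mk_surjective (p n).2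
    exact ⟨a, fun n => (ha n).symm⟩
  obtain ⟨a, ha⟩ := hlift
  have hit : ∀ n : ℕ, ∀ y : Y, ∀ x : G, (fun z : Y × (G ⧸ Γ) => ((S z.1, g z.1 • z.2) : Y × (G ⧸ Γ)))^[n] (y, (x : G ⧸ Γ)) =
      (((Pool.Agent.Lib.MP_3e612f_nt.NF.skew S g)^[n] (y, x)).1, ((((Pool.Agent.Lib.MP_3e612f_nt.NF.skew S g)^[n] (y, x)).2 : G) : G ⧸ Γ)) := by
    intro n
    induction n with
    | zero => intro y x; rfl
    | succ n ih =>
      intro y x
      rw [Function.iterate_succ_apply, Function.iterate_succ_apply]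
      exact ih (S y) (g y * x)
  refine le_trans (le_of_eq ?_) (h1 H N hH hN fun n => ((p n).1, a n))
  refine sum_congr rfl fun n _ => ?_
  congr 1
  refine sum_congr rfl fun h _ => ?_
  have h2 : p n = ((p n).1, (a n : G ⧸ Γ)) := Prod.ext rfl (ha n)
  rw [h2, hit]
  congr 1

end Pool.Agent.Results.MP_3e612f_nt.SkewNil
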