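import Pool.Agent.Lib.MP_3e612f_nt.Cube

/-!
The logarithmically averaged Sarnak conjecture is equivalent to its special case of smooth self-maps
of the cube `[0,1]ⁿ` and the first coordinate, for every `n ≥ 2`.
-/

set_option autoImplicit false

namespace Pool.Agent.Lib.MP_3e612f_nt.Kept.SmoothCubeMaps

open Filter Topology Set Dynamics
open scoped ContDiff

/-- Let `n = d + 2`. The logarithmically averaged Sarnak conjecture, for all compact metric systems
of zero topological entropy and all continuous functions, holds if and only if it holds for all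
`C^∞` maps `T : ℝⁿ → ℝⁿ` that map the cube `[0,1]ⁿ` into itself and have zero topological entropy
on it, with the first coordinate as the function. -/
theorem result (d : ℕ) :
    (∀ (X : Type) [MetricSpace X] [CompactSpace X] (T : X → X), Continuous T →
      Dynamics.coverEntropy T Set.univ = 0 → ∀ f : X → ℂ, Continuous f → ∀ x : X,
      Tendsto (fun N : ℕ => (1 / (Real.log (N : ℝ) : ℂ)) * ∑ n ∈ Finset.Icc 1 N,
        f (T^[n] x) * ((ArithmeticFunction.moebius n : ℤ) : ℂ) / (n : ℂ)) atTop (𝓝 0)) ↔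
    (∀ T : (Fin (d + 2) → ℝ) → (Fin (d + 2) → ℝ), ContDiff ℝ ∞ T →
      MapsTo T (Icc 0 1) (Icc 0 1) → Dynamics.coverEntropy T (Icc 0 1) = 0 →
      ∀ z ∈ Icc (0 : Fin (d + 2) → ℝ) 1,
      Tendsto (fun N : ℕ => (1 / (Real.log (N : ℝ) : ℂ)) * ∑ n ∈ Finset.Icc 1 N,
        ((T^[n] z 0 : ℝ) : ℂ) * ((ArithmeticFunction.moebius n : ℤ) : ℂ) / (n : ℂ))
        atTop (𝓝 0)) :=
  Pool.Agent.Lib.MP_3e612f_nt.logSarnak_iff_cube d

end Pool.Agent.Lib.MP_3e612f_nt.Kept.SmoothCubeMaps
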