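import Pool.Agent.Lib.MP_3e612f_nt.Diffeos

/-!
The logarithmically averaged Sarnak conjecture is equivalent to its special case of compactly
supported smooth diffeomorphisms of `ℝⁿ` and the first coordinate, for every `n ≥ 3`.
-/

set_option autoImplicit false

namespace Pool.Agent.Lib.MP_3e612f_nt.Kept.SmoothDiffeos

open Filter Topology Set Dynamics
open scoped ContDiff

/-- Let `n = d + 3`. The logarithmically averaged Sarnak conjecture, for all compact metric systems
of zero topological entropy and all continuous functions, holds if and only if it holds for all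
`C^∞` diffeomorphisms `T` of `ℝⁿ` that are the identity outside some ball `B(0, R)` and have zero
topological entropy on that ball, with the first coordinate as the function. -/
theorem result (d : ℕ) :
    (∀ (X : Type) [MetricSpace X] [CompactSpace X] (T : X → X), Continuous T →
      Dynamics.coverEntropy T Set.univ = 0 → ∀ f : X → ℂ, Continuous f → ∀ x : X,
      Tendsto (fun N : ℕ => (1 / (Real.log (N : ℝ) : ℂ)) * ∑ n ∈ Finset.Icc 1 N,
        f (T^[n] x) * ((ArithmeticFunction.moebius n : ℤ) : ℂ) / (n : ℂ)) atTop (𝓝 0)) ↔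
    (∀ T T' : (Fin (d + 3) → ℝ) → (Fin (d + 3) → ℝ), ContDiff ℝ ∞ T → ContDiff ℝ ∞ T' →
      (∀ z, T' (T z) = z) → (∀ z, T (T' z) = z) → ∀ R : ℝ, (∀ z, R ≤ ‖z‖ → T z = z) →
      Dynamics.coverEntropy T (Metric.closedBall 0 R) = 0 → ∀ z : Fin (d + 3) → ℝ,
      Tendsto (fun N : ℕ => (1 / (Real.log (N : ℝ) : ℂ)) * ∑ n ∈ Finset.Icc 1 N,
        ((T^[n] z 0 : ℝ) : ℂ) * ((ArithmeticFunction.moebius n : ℤ) : ℂ) / (n : ℂ))
        atTop (𝓝 0)) :=
  Pool.Agent.Lib.MP_3e612f_nt.logSarnak_iff_diffeo d

end Pool.Agent.Lib.MP_3e612f_nt.Kept.SmoothDiffeos
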