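import Pool.Agent.Lib.MP_3e612f_nt.PS.SubE
import Pool.Agent.Lib.MP_3e612f_nt.PS.SubD2

/-!
Sarnak's conjecture, uniformly in the point, for the universal subshift of all digit products with
values in a finite group `G` (arbitrary bounded mixed radices, arbitrary digit maps).
-/

set_option autoImplicit false

namespace Pool.Agent.Kept.MP_3e612f_nt.UniversalSubshift

open Pool.Agent.Lib.MP_3e612f_nt.PS

/-- Let `G` be a finite group and `B ≥ 2`. Let `X` be the set of all sequences `x` in `G` such that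
every initial block of `x` occurs in some sequence
`n ↦ g 0 (n₀) * g 1 (n₁) * ⋯ * g (L - 1) (n_{L-1})`, where `n_j = ⌊n / (q 0 ⋯ q (j - 1))⌋ mod q j`
are the digits of `n` for radices `2 ≤ q j ≤ B`. Then `X` is a nonempty subshift of zero topological
entropy, and for every continuous function `f` on `X` the averages of `f (T^n x) μ(n)` over
`n ≤ N` tend to `0` uniformly in `x ∈ X`. -/
theorem result (G : Type) [Group G] [Finite G] [UniformSpace G] [DiscreteUniformity G] (B : ℕ)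
    (hB : 2 ≤ B) :
    let X : Set (ℕ → G) := {x | ∀ l : ℕ, ∃ (q : ℕ → ℕ) (g : ℕ → ℕ → G) (L s : ℕ),
      (∀ j, 2 ≤ q j ∧ q j ≤ B) ∧ ∀ i < l, x i = ((List.range L).map fun j =>
        g j ((i + s) / (∏ k ∈ Finset.range j, q k) % q j)).prod}
    let T : (ℕ → G) → ℕ → G := fun x i => x (i + 1)
    X.Nonempty ∧ IsClosed X ∧ Set.MapsTo T X X ∧ Dynamics.coverEntropy T X = 0 ∧
      ∀ f : (ℕ → G) → ℂ, ContinuousOn f X → ∀ ε : ℝ, 0 < ε → ∃ N₀ : ℕ, ∀ N ≥ N₀, ∀ x ∈ X,
        ‖∑ n ∈ Finset.Icc 1 N, f (T^[n] x) * ((ArithmeticFunction.moebius n : ℤ) : ℂ)‖ ≤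
          ε * N := by
  intro X T
  have hX : X = UX G B := by
    ext x
    show (∀ l : ℕ, ∃ (q : ℕ → ℕ) (g : ℕ → ℕ → G) (L s : ℕ),
      (∀ j, 2 ≤ q j ∧ q j ≤ B) ∧ ∀ i < l, x i = ((List.range L).map fun j =>
        g j ((i + s) / (∏ k ∈ Finset.range j, q k) % q j)).prod) ↔ _
    simp only [Pool.Agent.Lib.MP_3e612f_nt.PB.list_eq_hw]
    rfl
  have hT : ∀ (n : ℕ) (x : ℕ → G), T^[n] x = fun i => x (i + n) := by
    intro n
    induction n with
    | zero => intro x; rfl
    | succ n ih =>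
      intro x
      rw [Function.iterate_succ_apply, ih]
      funext i
      show x (i + n + 1) = x (i + (n + 1))
      rfl
  have hTX : Set.MapsTo T X X := by
    intro x hx
    rw [hX] at hx ⊢
    exact UX_shift hx 1
  refine ⟨?_, ?_, hTX, ?_, ?_⟩
  · rw [hX]
    exact ⟨_, UX_nonempty hB⟩
  · rw [hX]
    exact UX_closed B
  · rw [hX]
    exact UX_entropy G B hB
  · intro f hf ε hε
    rw [hX] at hf
    obtain ⟨N₀, hN₀⟩ := UX_main G B hB f hf hε
    refine ⟨N₀, fun N hN x hx => ?_⟩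
    rw [hX] at hx
    have h := hN₀ N hN x hx
    have e : ∑ n ∈ Finset.Icc 1 N, f (T^[n] x) * ((ArithmeticFunction.moebius n : ℤ) : ℂ) =
        ∑ n ∈ Finset.Icc 1 N, ((ArithmeticFunction.moebius n : ℤ) : ℂ) *
          f (fun i => x (i + n)) := by
      refine Finset.sum_congr rfl fun n _ => ?_
      rw [hT n x, mul_comm]
    rw [e]
    exact h

end Pool.Agent.Kept.MP_3e612f_nt.UniversalSubshift
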